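import Mathlib
import Pool.Agent.Y1.TS.Main

/-!
# The Tate conjecture for the products of arbitrary smooth varieties with abelian varieties with one
Frobenius element of almost any slope type of any CM field

Let `K i` (`i` in a finite set) be CM fields of degree `2 g i`. Nothing is assumed about their Galois
groups. They are pairwise independent: for `i ≠ k` and all complex embeddings `φ` of `K i` and `ψ` of
`K k` some automorphism of `ℂ` is the identity on `φ (K i)` and the complex conjugation on `ψ (K k)`
(this is no condition if there is only one field). We fix an isomorphism `ν` of the algebraic closure
of `ℚ_p` with `ℂ`; it defines a `p`-adic valuation of `ℂ`, with the value one at `p`. Let `M i` be a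
function with nonzero integral values, all of which divide `n i`, on the complex embeddings of
`K i`, invariant under complex conjugation. A CM type `Φ i` of `K i` (a choice of one element out of
each complex conjugate pair of embeddings; there are `2 ^ (g i)` types), `M i` and a real number
`κ ≠ 0` prescribe the slopes `(a + κ M) / 2` (at the embeddings in `Φ i`) and `(a - κ M) / 2` (outside
of `Φ i`) of a Weil number for `p ^ a` in `K i` (`CT.HasType`). If `p` splits completely in `K i` then,
by Honda and Tate, all slopes with rational values between `0` and `a` that are symmetric in this way
occur for abelian varieties over finite fields. The case `M = 1`, `κ = a` is the case of ordinary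
abelian varieties; the assumption on `M` says that `a / 2` is not a slope. Slopes are rational, so
integral weights `M` are no restriction.

There are `2 ^ (∑ i, g i)` families of CM types `Φ i` of the fields `K i`. A family is exceptional
(`exceptionalFamilies ν K M`) if the following statement (`Holds`) is false for it. Let `k` be a
finitely generated field (of any characteristic), `A` an abelian variety over `k`, and let `γ` be a
Frobenius element of the Galois group `Γ` of `k` at **one** place of good reduction, the residue field
having `p ^ a` elements, for which the characteristic polynomial on the Tate module `V = V_ℓ (A)` is the
product of the minimal polynomials of Weil numbers `π i` which generate the fields `K i` and have the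
slope types `Φ i`, `M i`. Let `U` be an **arbitrary smooth variety** over `k`, proper or not, and
`M = W_b H^b(U, ℚ_ℓ(i))`, or any other representation of `Γ`, such that

* the eigenvalues of `γ` on `M` are roots of a polynomial `f ≠ 0` with rational coefficients all of
  whose complex roots `α` are unrelated to the fields `K i` (`UnrelatedTo`): a function `n` on the
  complex embeddings of `K i` with `n (conj φ) = - n φ` which is invariant under all automorphisms of
  `ℂ` that fix a power of `α` is zero. This is so if for each embedding `ψ` of `K i` some automorphism
  which fixes a power of `α` is the complex conjugation on `ψ (K i)`: for instance, if a power of `α`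
  lies in a field linearly disjoint from the normal closures of the `K i`, or in a totally real field.
  It is also so if the degree of `α` (which is at most the Betti number) is less than twice the
  dimension of each nonzero space of functions `n` stable under all automorphisms of `ℂ` (less than
  `2 g i` if this representation is irreducible, as it is for generic CM fields). The condition is the
  weakest one that depends only on the fields `K i` and `ℚ (α ^ m)`: if `n ≠ 0` is as above then the
  number `∏ φ (π i) ^ (2 n φ)` (the values of `n` integral), which is not a root of unity, lies in the
  field fixed by these automorphisms.

Then (`ClassesSplit`) **the classes in `H^j(A ^ r) ⊗ M` which are fixed by an open subgroup of `Γ` are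
zero for odd `j`, and linear combinations of products of `m` Tate classes of degree two on `A ^ r` (that
is, of divisor classes, by Tate, Zarhin and Faltings) and of Tate classes in `M(-m)` for `j = 2 m`.**
The classes in `H^j(A ^ r) ⊗ M` are the alternating maps of `j` variables from `V ^ r` to `M`. So for
all these `A` and all these smooth varieties `U` the Tate conjecture for `A ^ r × U` (all codimensions, all
`r`, over all finite extensions) is equivalent to the Tate conjecture for `U`. If `U` is a point it is
the Tate conjecture for all powers of `A`. The hypotheses on `V` (`IsPolarised`) are the
Weil pairing and the semisimplicity (Tate, Zarhin, Faltings).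

By the second part of the theorem the conclusion holds for all Weil numbers `π i` without
multiplicative relations between the conjugates, except for the trivial ones (`MaximalAngleRank`),
so that the theorem applies to all families that are not exceptional, and to many others.

The theorem bounds the number of the exceptional families: it is at most
`2 ^ (∑ i, g i) * ∑ i, C * (n i) ^ 2 * rate (K i) (g i) (q i)`, with an absolute constant `C`. Here
`q i` is any prime factor of `g i` (or `q i = 1`), and `rate K g q` is `(1 + log (2 g)) ^ 16` times
the smaller of the numbers

* `W (K) / √g`, where (third part of the theorem, `WeightEstimate`) `W (K) ≤ N ^ 2 * D ^ (1 / 4)`;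
  `N` is the number of the CM subfields of `K` (with `K`) and `D` is the largest degree of a CM
  subfield of `K` that is normal over `ℚ` with a nonabelian Galois group (`D = 1` if there are none);
* `√g / q`.

So the exceptional types are a proportion `O (n ^ 2 * g ^ (-1 / 4) * (log g) ^ 16)` of all types of
all CM fields with a bounded number of CM subfields, and `O (n ^ 2 * g ^ (-1 / 2) * (log g) ^ 16)` if
the normal nonabelian ones have bounded degrees (for instance if `K` has no proper CM subfields and
is not normal). The exponent `1 / 2` is sharp if `K` contains an imaginary quadratic field. And they
are a proportion `O (n ^ 2 * g ^ (-δ) * (log g) ^ 16)` of the types of all CM fields `K`, with any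
number of subfields, whose degree is divisible by a prime number `q ≥ g ^ (1 / 2 + δ)`; for small `δ`
there are such primes for about `log 2`, that is 69%, of all numbers `g`. Some assumption is
necessary: a multiquadratic CM field of degree `2 g` has `g` imaginary quadratic subfields, and by a
second moment argument almost all of its types are degenerate. The counting part of the theorem
(the bound for the number of the degenerate types) is the one of `AllCMFields` (MP_e12fcd_ag), by
helper1 and others of this team; new here are the condition on `U` and the application to
representations over finitely generated fields. The proof of the second part is the one of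
helper137 (`TimesArbitrarySmooth`), where the condition on `U` is stronger or the fields `K i` are
special.

The number `W (K)` (`subfieldWeight K`) is defined as follows. The automorphisms of `ℂ` act on the
rational functions on the set of the complex embeddings of `K` which change their sign under complex
conjugation. A field of definition (`fieldsOfDefinition K`) of an isotypic component of this
representation is a smallest subfield `F` of `K` such that the values of the functions in the
component depend only on the restrictions of the embeddings to `F`. It is a CM field. Then `W (K)` is
the sum over these fields `F` of the number of the CM subfields of `F`, multiplied by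
`[F : ℚ] ^ (1 / 4)` if `F` is normal over `ℚ` and its Galois group is not abelian.

The proof. A multiplicative relation between the conjugates of the `π i` and a number `α` gives, for
each automorphism `σ` of `ℂ`, a linear relation between the signed weights `± M i (σ φ)`, by the
`p`-adic valuations. For `α = 1` and nondegenerate types it is trivial; so the angle rank is maximal.
For general `α` we compare the relation with its image under the automorphisms `τ` which fix a power
of `α`: the exponents of `φ` minus those of `conj φ` are invariant under `τ`, and so zero. By this and
the semisimplicity (as in the starting files, H204R3, and in Y137) the Tate classes are as stated.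
If a type is degenerate
then the sign function, multiplied by `M`, is
orthogonal to a minimal Galois-stable space `S` of dimension `d`; let `h` be the dimension of the
part of `S` fixed by the stabilizer of an embedding, `e` the dimension of the algebra of the
endomorphisms of `S`. (1) The types orthogonal to some space isomorphic to `S` are at most
`2 ^ g * h d / (e ^ 2 √g)`, by an inequality for the kernels of sums of matrices with random signs.
(2) If `F` is the field of definition then `S` is a faithful representation of the Galois group `G`
of `F`, so that the order of `G` is at most `(2 g) ^ b` if `d (1 - h / d) ^ b < 1`; this permits to use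
reductions modulo primes of the size `√(g / d)` (as in the starting files) or larger primes, whatever
the order of `G` is, and gives the bound `2 ^ g * C * n ^ 2 * (h d / (e g_F)) * (log g) ^ 16 / √g`,
`2 g_F = [F : ℚ]`, if `c = e + d - h ≥ 3`. The sum of the numbers `h d / e` for one field `F` is at
most `g_F`. (3) If `c ≤ 2` then `F` is normal, or some involution acts as a reflection on `S` and
generates the stabilizer. The number of these `S` is estimated by the number of the CM subfields of
`F`: in the first case since rational characters are determined by their values on cyclic subgroups;
in the second case `S` is determined by a quadratic character of the centralizer of the involution.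
(4) For the second bound: the `S` of dimension less than `q - 1` come from a subfield of degree at
most `2 g / q`, and there are at most `2 g / q` others.
-/

set_option autoImplicit false

namespace Pool.Agent.Results.MP_2a05c8_ag.AllCMTypesTimesSmooth

open NumberField Module IntermediateField Pool.Agent.H204R3.CM Pool.Agent.H977R3.CM
  Pool.Agent.TH170 Pool.Agent.Y1.KN Pool.Agent.Y1.CT Pool.Agent.Y1.TS Pool.Agent.Y137.MV

/-- The splitting of the Tate classes on `A ^ r × U` holds for all abelian varieties `A` with a
Frobenius element whose characteristic polynomial is the product of the minimal polynomials of Weil
numbers with the slope types `Φ i`, `M i`, and all `U` unrelated to the fields `K i`. -/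
def Holds {p : ℕ} [Fact p.Prime] (ν : PadicAlgCl p ≃+* ℂ) {I : Type} [Fintype I] (K : I → Type)
    [∀ i, Field (K i)] [∀ i, NumberField (K i)] [∀ i, IsCMField (K i)]
    (M : ∀ i, (K i →+* ℂ) → ℤ) (Φ : ∀ i, Set (K i →+* ℂ)) : Prop :=
  ForAllWeil ν K M (fun a π => TateClassesSplit (p := p) a K π) Φ

/-- The exceptional families of CM types. -/
def exceptionalFamilies {p : ℕ} [Fact p.Prime] (ν : PadicAlgCl p ≃+* ℂ) {I : Type} [Fintype I]
    (K : I → Type) [∀ i, Field (K i)] [∀ i, NumberField (K i)] [∀ i, IsCMField (K i)]
    (M : ∀ i, (K i →+* ℂ) → ℤ) : Set (∀ i, Set (K i →+* ℂ)) :=
  {Φ | (∀ i, IsCMType (Φ i)) ∧ ¬ Holds ν K M Φ}

/-- **The Tate conjecture for `A ^ r × U` is equivalent to the Tate conjecture for `U`, for the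
abelian varieties `A` over finitely generated fields with a Frobenius element of almost any slope type
of any CM fields and all unrelated smooth varieties `U`.** -/
theorem result :
    (∃ C : ℝ, 0 ≤ C ∧ ∀ (p : ℕ) [Fact p.Prime] (ν : PadicAlgCl p ≃+* ℂ) (I : Type) [Fintype I]
      (K : I → Type) [∀ i, Field (K i)] [∀ i, NumberField (K i)] [∀ i, IsCMField (K i)]
      (M : ∀ i, (K i →+* ℂ) → ℤ) (n g q : I → ℕ), PairwiseIndep K →
      (∀ i φ, M i (ComplexEmbedding.conjugate φ) = M i φ) → (∀ i, n i ≠ 0) →
      (∀ i φ, M i φ ∣ (n i : ℤ)) → (∀ i, finrank ℚ (K i) = 2 * g i) →
      (∀ i, q i ∣ g i ∧ (q i = 1 ∨ (q i).Prime)) →
      ((exceptionalFamilies ν K M).ncard : ℝ) ≤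
        2 ^ (∑ i, g i) * ∑ i, C * (n i : ℝ) ^ 2 * rate (K i) (g i) (q i)) ∧
    (∀ (p : ℕ) [Fact p.Prime] (a : ℕ) (I : Type) [Fintype I] (K : I → Type) [∀ i, Field (K i)]
      [∀ i, NumberField (K i)] [∀ i, IsCMField (K i)] (π : ∀ i, K i), (∀ i, ℚ⟮π i⟯ = ⊤) →
      (∀ i, π i * IsCMField.complexConj (K i) (π i) = (p : K i) ^ a) →
      MaximalAngleRank (p ^ a) π → TateClassesSplit (p := p) a K π) ∧
    WeightEstimate := by
  obtain ⟨C, hC0, hC⟩ := ncard_of_angle
  refine ⟨⟨C, hC0, ?_⟩, ?_, weight_estimate_holds⟩
  · intro p _ ν I _ K _ _ _ M n g q hind hM hn hMn hg hq
    exact hC p ν I K M n g q hind hM hn hMn hg hq _ fun a π ha hgen hw hang =>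
      split_of_angle hgen hw hang
  · intro p _ a I _ K _ _ _ π hgen hw hang
    exact split_of_angle hgen hw hang

end Pool.Agent.Results.MP_2a05c8_ag.AllCMTypesTimesSmooth
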