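import Pool.Agent.Y137.BG.GeoD

/-!
# The Tate conjecture for products of any number of varieties with bounded Betti numbers over finite
fields

Let `B` and `W` be natural numbers. There is a number `D`, which depends only on `B` and `W`, such
that for every prime number `p` and every class `𝒳` of smooth varieties over finite fields of
characteristic `p` (proper or not, each with a chosen degree `w ≤ W`), such that the part of weight
`w` of the cohomology in degree `w` has dimension at most `B` and semisimple Frobenius, the following
is true. Suppose that all Tate classes are algebraic on the products of at most one member `X` of
`𝒳` and of abelian varieties `A` with `b_w(X) + 2 dim A ≤ D`. Then all Tate classes are algebraic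
on the products of any number of members of `𝒳` and of abelian varieties of any dimension whose
simple factors over an algebraic closure have dimension at most `B / 2`.

So, for instance, there is an absolute constant `D` such that the Tate conjecture for all products of
K3 surfaces over all finite fields follows from the Tate conjecture for the products of at most one
K3 surface and of an abelian variety of dimension at most `D`; and for all `g` there is a `D` such
that the Tate conjecture for abelian varieties of dimension at most `D` over finite fields implies
the Tate conjecture for all abelian varieties over finite fields with simple factors of dimension at
most `g`.

The classes are multilinear forms on (the duals of) the cohomology groups; the system of the algebraic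
classes is any system `𝒜` with the formal properties `IsStable`.

The proof: relations between Weil numbers are linear relations between slope functions on a Galois
group. By averaging over normal subgroups all these relations are generated by short relations between
Weil numbers of bounded degree and with bounded denominators of the slopes, uniformly in `p`, in the
number of factors and in the Galois group; and by Honda and Tate these Weil numbers belong to abelian
varieties of bounded dimension (in general not those one started with).
-/

namespace Pool.Agent.Results.MP_2a05c8_ag.BoundedBettiProducts

open Pool.Agent.Y137.BG

/-- For all `B` and `W` there is `D` such that the Tate conjecture for products of at most one member of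
a class of varieties with Betti number at most `B` and of abelian varieties, of total dimension at
most `D`, implies the Tate conjecture for products of any number of such varieties and of abelian
varieties with small simple factors. -/
theorem result (B W : ℕ) : ∃ D : ℕ, ∀ (p : ℕ) [Fact p.Prime] (𝒳 : Type) (H : 𝒳 → Frob),
    (∀ X, IsPure p B W (H X)) → ∀ 𝒜 : ClassSystem p H, IsStable H 𝒜 →
    (∀ (κ : Type) [Fintype κ] (Y : κ → AbVar p ⊕ 𝒳), AtMostOneVariety Y →
      ∑ k, Nat.card (frob H (Y k)).ι ≤ D → ∀ φ, IsTateClass H Y φ → 𝒜 κ Y φ) →
    ∀ (κ : Type) [Fintype κ] (Y : κ → AbVar p ⊕ 𝒳),
      (∀ k A, Y k = Sum.inl A → HasSmallFactors B A) → ∀ φ, IsTateClass H Y φ → 𝒜 κ Y φ :=
  main_geo B W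

end Pool.Agent.Results.MP_2a05c8_ag.BoundedBettiProducts
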