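import Pool.Agent.Y709.Ten.Flat
import Pool.Agent.Y709.Lay.SpecC
import Pool.Agent.Y709.Lay.Root

/-!
Products of `2 m - 1` superelliptic curves over the line over the function field of a variety `Y` of
positive dimension over a finite field `k ⊇ 𝔽_q`: for `D` outside of a set of density zero there is a
closed point `c` of `Y` at which a given polynomial `g` has a root such that the L-functions of the
specialisation at `c` do not vanish at `T = (#k(c)) ^ (-m)`, over all Galois coverings with a `p`-group.
-/

set_option autoImplicit false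

open Polynomial

namespace Pool.Agent.Results.MP_2a05c8_ag.DensityOneProducts

/-- The Euler product: its coefficient of index `n` is that of the product of the factors of degree
at most `n`. -/
noncomputable def eulerProduct {ι : Type} (d : ι → ℕ) (f : ι → PowerSeries ℂ) : PowerSeries ℂ :=
  PowerSeries.mk fun n => PowerSeries.coeff n (∏ᶠ (i : ι) (_ : d i ≤ n), f i)

section points

variable {κ : Type} [Field κ] {O : Type} [CommRing O] [Algebra κ[X] O]

/-- For an algebra `O` over `κ[t]`, the algebra over `κ` of the functions on a closed subscheme of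
`Spec O[x_0, …]`. -/
noncomputable def quotientAlgebra {n : ℕ} (J : Ideal (MvPolynomial (Fin n) O)) :
    Algebra κ (MvPolynomial (Fin n) O ⧸ J) :=
  ((Ideal.Quotient.mk J).comp
    (MvPolynomial.C.comp ((algebraMap κ[X] O).comp (C : κ →+* κ[X])))).toAlgebra

variable (κ) in
/-- The degree over `κ` of a closed subscheme `J` of `Spec O[x_0, …]`: for a closed point, the degree
over `κ` of its residue field. -/
noncomputable def degree {n : ℕ} (J : Ideal (MvPolynomial (Fin n) O)) : ℕ :=
  @Module.finrank κ (MvPolynomial (Fin n) O ⧸ J) _ _ (quotientAlgebra J).toModule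

variable (κ) in
/-- The norm to `κ` of the value at `J` of an element of `O[x_0, …]`. -/
noncomputable def normAt {n : ℕ} (J : Ideal (MvPolynomial (Fin n) O))
    (g : MvPolynomial (Fin n) O) : κ :=
  @Algebra.norm κ (MvPolynomial (Fin n) O ⧸ J) _ _ (quotientAlgebra J) (Ideal.Quotient.mk J g)

/-- A finite group `G` acts on the ring `O ⊇ κ[t]` faithfully and with the ring of invariants `κ[t]`, so
that `Spec O` is a Galois covering of the line with the group `G`, the group is a `p`-group, and the
covering is unramified at the points where `E(t)` is not zero: the inertia groups are trivial. -/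
structure IsLayer (p : ℕ) (E : κ[X]) (G O : Type) [Group G] [Finite G] [CommRing O]
    [Algebra κ[X] O] [MulSemiringAction G O] : Prop where
  galois : IsGaloisGroup G κ[X] O
  injective : Function.Injective (algebraMap κ[X] O)
  pgroup : IsPGroup p G
  unramified : ∀ 𝔪 : MaximalSpectrum O, algebraMap κ[X] O E ∉ 𝔪.asIdeal →
    𝔪.asIdeal.inertia G = ⊥

end points

section base

variable {k : Type} [Field k] {A : Type} [CommRing A] [Algebra k A]

/-- The residue field of a closed point of `Y = Spec A`. -/
def FieldAt (c : MaximalSpectrum A) : Type := A ⧸ c.asIdeal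

attribute [local instance] MaximalSpectrum.isMaximal in
noncomputable instance fieldAtField (c : MaximalSpectrum A) : Field (FieldAt c) :=
  Ideal.Quotient.field c.asIdeal

instance fieldAtAlgebra (c : MaximalSpectrum A) : Algebra k (FieldAt c) :=
  inferInstanceAs (Algebra k (A ⧸ c.asIdeal))

/-- The value of a function on `Y` at the closed point `c`. -/
def evalAt (c : MaximalSpectrum A) : A →+* FieldAt c := Ideal.Quotient.mk c.asIdeal

end base

/-- The data `β_{j,i}(t)`, `m_{j,i}` of `n` polynomials `f_j = ∏_i (x_j - β_{j,i}(t)) ^ (m_{j,i})`, the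
`j`-th one with `r_j + 1` sections, and a polynomial `B(t)`; the `β_{j,i}` and `B` are polynomials in `t`
over the ring `A`. -/
structure Family (A : Type) [CommRing A] (n : ℕ) : Type where
  coef : A[X]
  rank : Fin n → ℕ
  root : ∀ j, Fin (rank j + 1) → A[X]
  mult : ∀ j, Fin (rank j + 1) → ℕ

section family

variable {A : Type} [CommRing A] {n : ℕ}

/-- The specialisation of the data at a homomorphism `c`. -/
noncomputable def Family.at (S : Family A n) {κ : Type} [Field κ] (c : A →+* κ) : Family κ n :=
  ⟨S.coef.map c, S.rank, fun j i => (S.root j i).map c, S.mult⟩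

variable (S : Family A n)

/-- The degree `n_j` of `f_j` in `x_j`: the sum of the multiplicities. -/
def Family.degX (j : Fin n) : ℕ := ∑ i, S.mult j i

/-- The collisions of the sections of the polynomials `f_j` with `j ≥ m`: the product of the
`(β_{j,l} - β_{j,i}) ^ (m_{j,i} + m_{j,l})` over `i < l`. -/
noncomputable def Family.collision (m : ℕ) : A[X] :=
  ∏ j : Fin n, if (j : ℕ) < m then 1 else
    ∏ i, ∏ l ∈ Finset.Ioi i, (S.root j l - S.root j i) ^ (S.mult j i + S.mult j l)

/-- The polynomial `B ∏_j ∏ (β_{j,l} - β_{j,i})`, the product over `i < l`. -/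
noncomputable def Family.disc : A[X] :=
  S.coef * ∏ j : Fin n, ∏ i, ∏ l ∈ Finset.Ioi i, (S.root j l - S.root j i)

/-- The sections of each `f_j` are distinct of degree at most `d` in `t`, the multiplicities are
positive, and their sum `n_j` is less than `p` and than `q - 1`; `B` is not zero and is divisible by the
square of the collisions of the `f_j` with `j ≥ m`. -/
structure Family.Good (p q m d : ℕ) : Prop where
  root_inj : ∀ j, Function.Injective (S.root j)
  root_deg : ∀ j i, (S.root j i).natDegree ≤ d
  mult_pos : ∀ j i, 0 < S.mult j i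
  degX_char : ∀ j, S.degX j < p
  degX_lt : ∀ j, S.degX j < q - 1
  coef_ne : S.coef ≠ 0
  collision_dvd : S.collision m ^ 2 ∣ S.coef

end family

section special

variable {κ : Type} [Field κ] {n : ℕ} (S : Family κ n) (O : Type) [CommRing O] [Algebra κ[X] O]

/-- The polynomial `f_j` in `O[x_0, …]`. -/
noncomputable def Family.poly (j : Fin n) : MvPolynomial (Fin n) O :=
  ∏ i, (MvPolynomial.X j - MvPolynomial.C (algebraMap κ[X] O (S.root j i))) ^ S.mult j i

/-- The weight of a closed point: `χ` of the norm of `D(t) B(t) ∏_{j < m} f_j`, times the inverse of `χ`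
of the norm of `∏_{j ≥ m} f_j`; it is zero if one of these values is zero. -/
noncomputable def Family.weight (m : ℕ) (χ : MulChar κ ℂ) (D : κ[X])
    (J : Ideal (MvPolynomial (Fin n) O)) : ℂ :=
  χ (normAt κ J (MvPolynomial.C (algebraMap κ[X] O (D * S.coef)) *
      ∏ j : Fin n with j.val < m, S.poly O j)) *
    χ⁻¹ (normAt κ J (∏ j : Fin n with ¬ j.val < m, S.poly O j))

/-- The `L`-function in the variable `T`: the product of `1 - weight(z) T ^ (deg z)` over all closed
points `z` of `Spec O[x_0, …]`. -/
noncomputable def Family.Lfun (m : ℕ) (χ : MulChar κ ℂ) (D : κ[X]) : PowerSeries ℂ :=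
  eulerProduct (fun z : MaximalSpectrum (MvPolynomial (Fin n) O) => degree κ z.asIdeal)
    (fun z => 1 - PowerSeries.C (S.weight O m χ D z.asIdeal) *
      PowerSeries.X ^ degree κ z.asIdeal)

end special

/-- The power series `L` in `T` is the product of a polynomial and of `1 - Q T`: it vanishes at
`T = 1 / Q`. -/
def Vanishes (Q : ℕ) (L : PowerSeries ℂ) : Prop :=
  ∃ G : ℂ[X], L = (((1 - C (Q : ℂ) * X) * G : ℂ[X]) : PowerSeries ℂ)

/-- The polynomial `D` has exact degree `N`, it is squarefree and prime to
`B ∏_j ∏ (β_{j,l} - β_{j,i})`, and over all Galois coverings with a `p`-group that are unramified outside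
of the zeros of `D B` (and `∞`) none of the `L`-functions of the characters `χ` of exact order `q - 1`
vanishes at `T = (#κ) ^ (-m)`. -/
structure Family.Settled {κ : Type} [Field κ] {n : ℕ} (S : Family κ n) (p q m N : ℕ)
    (D : κ[X]) : Prop where
  deg : D.natDegree = N
  squarefree : Squarefree D
  coprime : IsCoprime D S.disc
  nonvanishing : ∀ (G O : Type) [Group G] [Finite G] [CommRing O] [Algebra κ[X] O]
    [MulSemiringAction G O], IsLayer p (D * S.coef) G O →
      ∀ χ : MulChar κ ℂ, orderOf χ = q - 1 → ¬ Vanishes (Nat.card κ ^ m) (S.Lfun O m χ D)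

section conv

open Pool.Agent.Y709 Pool.Agent.Y709.Lay Pool.Agent.Y709.Ten

theorem collision_eq {k : Type} [Field k] {n : ℕ} (S : Family k n) (m : ℕ) :
    S.collision m = coll (fun j => decide ((j : ℕ) < m)) S.root S.mult := by
  unfold Family.collision coll
  refine Finset.prod_congr rfl fun j _ => ?_
  by_cases hj : (j : ℕ) < m
  · rw [if_pos hj, if_pos (decide_eq_true hj)]
  · rw [if_neg hj, if_neg (by simpa using hj)]
    unfold Irr.prs
    rw [Finset.prod_filter, ← Finset.univ_product_univ, Finset.prod_product]
    refine Finset.prod_congr rfl fun i _ => ?_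
    rw [← Finset.prod_filter]
    refine Finset.prod_congr ?_ fun _ _ => rfl
    ext l
    simp

variable {k : Type} [Field k] [Finite k] {O : Type} [CommRing O] [Algebra k[X] O]
  (G : Type) [Group G] [Finite G] [MulSemiringAction G O] [IsGaloisGroup G k[X] O]

include G in
theorem Lfun_eq {n : ℕ} (S : Family k n) {q : ℕ} (m : ℕ) (χ : MulChar k ℂ)
    (hχ : orderOf χ = q - 1) (hm : ∀ j i, 0 < S.mult j i) (hmq : ∀ j i, S.mult j i < q - 1)
    (D : k[X]) :
    S.Lfun O m χ D =
      LN O q (fun j => decide ((j : ℕ) < m)) S.root S.mult χ (D * S.coef) :=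
  flat_eq G m χ hχ (D * S.coef) S.root S.mult hm hmq

theorem numP_eq {m : ℕ} (hm : 0 < m) :
    numP (fun j : Fin (2 * m - 1) => decide ((j : ℕ) < m)) = m := by
  unfold numP
  simp only [decide_eq_true_eq]
  rw [Finset.sum_boole, Nat.cast_id]
  have h1 : (Finset.univ.filter fun j : Fin (2 * m - 1) => (j : ℕ) < m).card =
      (Finset.range m).card := by
    refine Finset.card_bij (fun j _ => (j : ℕ)) ?_ ?_ ?_
    · intro j hj
      exact Finset.mem_range.2 (Finset.mem_filter.1 hj).2
    · intro i _ j _ h
      exact Fin.ext h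
    · intro i hi
      rw [Finset.mem_range] at hi
      exact ⟨⟨i, by omega⟩, Finset.mem_filter.2 ⟨Finset.mem_univ _, hi⟩, rfl⟩
  rw [h1, Finset.card_range]

/-- the polynomials that are not settled -/
theorem ncard_not_settled {κ : Type} [Field κ] [Finite κ] {p : ℕ} [Fact p.Prime] [CharP κ p]
    {a s q : ℕ} (ha : 0 < a) (hs : 0 < s) (hq : q = p ^ a) (hk : Nat.card κ = q ^ s) {m : ℕ}
    (hm : 0 < m) (S : Family κ (2 * m - 1)) {d : ℕ} (hS : S.Good p q m d) {R : ℕ}
    (hR : R = ∏ j, S.rank j) {f : ℕ} (hf : S.coef.natDegree +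
      d * ∑ j : Fin (2 * m - 1), (if j.val < m then 1 else S.rank j - 1) * S.degX j ≤
        f + (S.collision m).natDegree)
    (hr : R * f + 3 * R ^ 2 + 6 * R + 8 ≤ q) {δ : ℕ}
    (hδ : S.disc.natDegree ≤ δ) (hD0 : S.disc ≠ 0) (hbig : q * (δ + 3) ≤ Nat.card κ) {M ρ N : ℕ}
    (hM : 4 * R ^ 2 + 8 ≤ M) (hρ : R < ρ) (hρf : ρ + f ≤ q - 1) (hN : N + 1 = (q - 1) * M + ρ) :
    q * {D : κ[X] | D.natDegree ≤ N ∧ ¬ S.Settled p q m N D}.ncard ≤
      (2 * R + 1) * Nat.card κ ^ (N + 1) := by
  have hFt : Fintype κ := Fintype.ofFinite κ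
  have hodd : Odd (2 * m - 1) := ⟨m - 1, by omega⟩
  have hmq : ∀ j i, S.mult j i < q - 1 := fun j i =>
    (Finset.single_le_sum (f := S.mult j) (fun _ _ => Nat.zero_le _) (Finset.mem_univ i)).trans_lt
      (hS.degX_lt j)
  have h1 := Pool.Agent.Y709.Ten.countN (k := κ) (p := p) hq ha hs
    (by rw [← Nat.card_eq_fintype_card, hk]) hodd (fun j => decide ((j : ℕ) < m)) S.root
    hS.root_inj d hS.root_deg S.mult hS.mult_pos hS.degX_char hS.degX_lt S.coef hS.coef_ne
    (by rw [← collision_eq]; exact hS.collision_dvd) f ρ M N 1 R (one_dvd _) hR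
    (by
      rw [← collision_eq]
      refine le_trans (le_of_eq ?_) hf
      congr 2
      refine Finset.sum_congr rfl fun j _ => ?_
      congr 1
      by_cases hj : (j : ℕ) < m
      · rw [if_pos hj, if_pos (decide_eq_true hj)]
      · rw [if_neg hj, if_neg (by simpa using hj)]) hr hρ hρf hM hN
  rw [numP_eq hm] at h1
  set V := {D : κ[X] | D.natDegree ≤ N ∧
    VanNX p q 1 (fun j : Fin (2 * m - 1) => decide ((j : ℕ) < m)) S.root S.mult m
      (D * S.coef)} with hV
  have hsub : {D : κ[X] | D.natDegree ≤ N ∧ ¬ S.Settled p q m N D} ⊆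
      (({D : κ[X] | D.natDegree ≤ N ∧ D.natDegree ≠ N} ∪
        {D : κ[X] | D.natDegree ≤ N ∧ ¬ Squarefree D}) ∪
        {D : κ[X] | D.natDegree ≤ N ∧ ¬ IsCoprime D S.disc}) ∪ V := by
    rintro D ⟨hD, hns⟩
    by_cases h2 : D.natDegree = N
    · by_cases h3 : Squarefree D
      · by_cases h4 : IsCoprime D S.disc
        · right
          by_contra h5
          apply hns
          refine ⟨h2, h3, h4, ?_⟩
          intro G O i1 i2 i3 i4 i5 hL χ hχ h6
          obtain ⟨H, hH⟩ := h6
          apply h5
          have i6 := hL.galois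
          have i7 : FaithfulSMul κ[X] O :=
            (faithfulSMul_iff_algebraMap_injective _ _).2 hL.injective
          refine ⟨hD, G, O, i1, i2, i3, i4, i5, i6, i7, hL.pgroup, ?_, χ, hχ, 1, one_pow 1, H, ?_⟩
          · intro 𝔪 h𝔪
            apply hL.unramified
            intro h0
            exact h𝔪 ((Pool.Agent.Y709.Lay.vO_eq_zero κ).2 h0)
          · rw [← Lfun_eq G S m χ hχ hS.mult_pos hmq, hH, mul_one, Nat.cast_pow]
        · exact Or.inl (Or.inr ⟨hD, h4⟩)
      · exact Or.inl (Or.inl (Or.inr ⟨hD, h3⟩))
    · exact Or.inl (Or.inl (Or.inl ⟨hD, h2⟩))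
  have hVf : V.Finite := Pool.Agent.Y709.Sp.finite_sub N
  have h2 := Pool.Agent.Y709.Sp.ncard_drop (k := κ) N
  have h3 := Pool.Agent.Y709.Sp.ncard_sq (k := κ) N
  have h4 := Pool.Agent.Y709.Sp.ncard_cop hD0 hδ N
  have h5 : {D : κ[X] | D.natDegree ≤ N ∧ ¬ S.Settled p q m N D}.ncard ≤
      (δ + 3) * Nat.card κ ^ N + V.ncard := by
    refine (Set.ncard_le_ncard hsub ((((Pool.Agent.Y709.Sp.finite_sub N).union
      (Pool.Agent.Y709.Sp.finite_sub N)).union (Pool.Agent.Y709.Sp.finite_sub N)).union
        hVf)).trans ?_
    refine (Set.ncard_union_le _ _).trans ?_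
    refine (Nat.add_le_add_right ((Set.ncard_union_le _ _).trans
      (Nat.add_le_add_right (Set.ncard_union_le _ _) _)) _).trans ?_
    have h6 : (δ + 3) * Nat.card κ ^ N = Nat.card κ ^ N + 2 * Nat.card κ ^ N +
      δ * Nat.card κ ^ N := by ring
    rw [h6]
    exact Nat.add_le_add_right (Nat.add_le_add (Nat.add_le_add h2 h3) h4) _
  calc q * _ ≤ q * ((δ + 3) * Nat.card κ ^ N + V.ncard) := Nat.mul_le_mul_left q h5
    _ = (q * (δ + 3)) * Nat.card κ ^ N + q * V.ncard := by ring
    _ ≤ Nat.card κ * Nat.card κ ^ N + 2 * R * 1 * Nat.card κ ^ (N + 1) :=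
        Nat.add_le_add (Nat.mul_le_mul_right _ hbig) h1
    _ = _ := by ring

end conv

section twists

variable {k : Type} [Field k] {A : Type} [CommRing A] [Algebra k A]

/-- The polynomials `D` in `t` over `A` of degree at most `N` with coefficients in `H`. -/
def twists (H : Submodule k A) (N : ℕ) : Set A[X] :=
  {D | D.natDegree ≤ N ∧ ∀ j, D.coeff j ∈ H}

/-- The polynomials `D` which are settled at none of the closed points `c` of `Y = Spec A` with
`a(c) ≠ 0` at which the polynomial `g` over `A` has a root in the residue field. -/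
def Family.exceptions {n : ℕ} (S : Family A n) (a : A) (g : A[X]) (H : Submodule k A)
    (p q m N : ℕ) : Set A[X] :=
  {D | D ∈ twists H N ∧ ∀ c : MaximalSpectrum A, evalAt c a ≠ 0 →
    (∃ x : A, evalAt c (g.eval x) = 0) → ¬ (S.at (evalAt c)).Settled p q m N (D.map (evalAt c))}

end twists

theorem map_leading {A κ : Type} [CommRing A] [Field κ] (φ : A →+* κ) {h : A[X]}
    (hc : φ h.leadingCoeff ≠ 0) : (h.map φ).natDegree = h.natDegree ∧ h.map φ ≠ 0 := by
  have h1 : (h.map φ).coeff h.natDegree ≠ 0 := by
    rw [coeff_map]
    exact hc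
  refine ⟨le_antisymm natDegree_map_le (le_natDegree_of_ne_zero h1), ?_⟩
  intro h0
  rw [h0, coeff_zero] at h1
  exact h1 rfl

/-- **The Tate conjecture in codimension `m`, for every `m`, for 100 per cent of the twists of the
fibrations in products of `2 m - 1` superelliptic curves, over the infinite finitely generated fields `K`
of positive characteristic and over each of their finite extensions.**

Let `q` be a power of the prime number `p`, let `k` be a finite extension of the field with `q` elements,
and let `A` be the coordinate ring of an affine variety `Y` over `k` of positive dimension, `K = k(Y)`; so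
`K` is any infinite field that is finitely generated over its prime field and contains the field with `q`
elements. Let `m ≥ 1`, and for `0 ≤ j < 2 m - 1` let `f_j = ∏_i (x_j - β_{j,i}(t)) ^ (m_{j,i})`, where the
`r_j + 1` sections `β_{j,i}` in `A[t]` are distinct and of degree at most `d`, and the sum `n_j` of the
multiplicities `m_{j,i} ≥ 1` is less than `p` and less than `q - 1`. Let `B ≠ 0` in `A[t]` be divisible by
the square of the collisions `∏ (β_{j,l} - β_{j,i}) ^ (m_{j,i} + m_{j,l})` of the sections with `j ≥ m`
(no condition if they are constant). For `D ≠ 0` in `A[t]` let `U_D` be the variety over `K` with the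
equations `y_0 ^ (q - 1) = D(t) B(t) f_0(t, x_0)`, `y_j ^ (q - 1) = f_j(t, x_j)` (`j ≥ 1`), where `y_j ≠ 0`
for all `j`. It is a smooth affine variety of dimension `2 m`, not proper, fibred over the `t`-line in
products of open parts of `2 m - 1` superelliptic curves. The group `μ` of the roots of unity of order
`q - 1` acts on it in `2 m - 1` ways. For a character `χ` of exact order `q - 1` let `V = V_{D, χ}` be the
part of the cohomology on which `μ` acts by `χ` on the `y_j` with `j < m` and by its inverse on the others.

The theorem: let `R = ∏ r_j`, `Δ` the collisions, `f + deg Δ ≥ deg B + d (∑_{j < m} n_j +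
∑_{j ≥ m} (r_j - 1) n_j)`, `R f + 3 R ^ 2 + 6 R + 8 ≤ q`. Let `a ≠ 0` in `A`, let `g` be a polynomial of
positive degree over `A`, and `n ≥ 1`. There is a finite-dimensional space `H₀` of functions on `Y` such
that for every finite-dimensional space `H ⊇ H₀` and every degree `N` with `N + 1 = (q - 1) M + ρ`,
`M ≥ 4 R ^ 2 + 8`, `R < ρ ≤ q - 1 - f`, for all `D` of degree at most `N` in `t` with coefficients in `H`,
outside of a proportion of at most `1 / n`, there is a closed point `c` of `Y` with `a(c) ≠ 0`, such that
`g` has a root in the residue field `κ = k(c)`, the specialisation `D_c` has exact degree `N`, is squarefree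
and prime to `B ∏ (β_{j,l} - β_{j,i})` at `c`, and the `L`-functions `Lfun` of the specialisation of `U_D` at
`c` do not vanish at the point `T = (#κ) ^ (-m)`, over every Galois covering of the `t`-line over `κ` with a
`p`-group that is unramified outside of the zeros of `D_c B_c` and `∞`. So the density of the `D` without
such a point is zero (`H` growing, `N` arbitrary in its residue classes modulo `q - 1`).

This implies that the Tate conjecture `T ^ i (U_D)` is true, for all `i`, for the part `V` over each finite
extension `K'` of `K`, for 100 per cent of the `D`. We may assume that `K'` is separable over `K`, and take for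
`g` a multiple in `A[x]` of the minimal polynomial of a generator of `K'`. Choose `a` such that where `a ≠ 0`
the variety `Y` is smooth, the leading coefficient and the discriminant of `g` are invertible, and the degree
and the number of geometric zeros of `B ∏ (β_{j,l} - β_{j,i})` are constant. Let `D` be settled at `c`. Since
`D_c` has a simple zero where the fibres are smooth, and the local monodromy of `V` above it is a nontrivial
scalar, the part `V` of the cohomology with compact supports of the smooth affine variety `U_{D, c}` is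
concentrated in the degree `2 m`, and `Lfun` is the characteristic polynomial of its Frobenius, by the trace
formula. After a purely inseparable base change the zeros of `D B ∏ (β_{j,l} - β_{j,i})` form a finite étale
covering of a neighbourhood of `c`, outside of which the parts of the cohomology groups of the fibres over the
`t`-line form a lisse tame sheaf (the degrees `n_j` are smaller than `p`), and the same holds on each of these
zeros; so the groups `V` of the fibres over `Y` form a lisse sheaf in a neighbourhood of `c`. A root of `g` in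
`κ` is a point `c'` above `c`, with the same residue field, of the normalisation of `Y` in `K'`. By Poincaré
duality the group `H ^ (2 m) (U_D ⊗ K̄, ℚ_ℓ(m))_V` is the dual of the corresponding part with compact supports,
and a nonzero vector in it that is invariant under the Galois group of `K'` would give the eigenvalue
`(#κ) ^ m` of the Frobenius of `c'` on the part with compact supports at `c`, against the theorem. So the group
of invariants is zero, and `T ^ m (U_D)_V` is true; the other cohomology groups of `U_D` have no part `V`. If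
`B` is in `k[t]`, the same holds, for the same `D`, for the pull-backs of `U_D` to all Galois coverings of
degree a power of `p` of the `t`-line over `k` that are unramified outside of the zeros of `B` and `∞`. The
dimension of `V` grows with `N` like `R N`. For `m = 1` the theorem is about divisors on surfaces. -/
theorem result (k : Type) [Field k] [Finite k] (p : ℕ) [Fact p.Prime] [CharP k p] (a₀ s q : ℕ)
    (ha₀ : 0 < a₀) (hs : 0 < s) (hq : q = p ^ a₀) (hk : Nat.card k = q ^ s) (A : Type) [CommRing A]
    [IsDomain A] [Algebra k A] [Algebra.FiniteType k A] (hA : ¬ Module.Finite k A) (a : A)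
    (ha : a ≠ 0) (g : A[X]) (hg : 0 < g.natDegree) (m : ℕ) (hm : 0 < m)
    (S : Family A (2 * m - 1)) (d : ℕ) (hS : S.Good p q m d) (R : ℕ) (hR : R = ∏ j, S.rank j)
    (f : ℕ) (hf : S.coef.natDegree +
      d * ∑ j : Fin (2 * m - 1), (if j.val < m then 1 else S.rank j - 1) * S.degX j ≤
        f + (S.collision m).natDegree)
    (hr : R * f + 3 * R ^ 2 + 6 * R + 8 ≤ q) (n : ℕ) :
    ∃ H₀ : Submodule k A, Module.Finite k H₀ ∧ ∀ H : Submodule k A, H₀ ≤ H → Module.Finite k H →
      ∀ M ρ N : ℕ, 4 * R ^ 2 + 8 ≤ M → R < ρ → ρ + f ≤ q - 1 → N + 1 = (q - 1) * M + ρ →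
        (twists H N).Finite ∧
          n * (S.exceptions a g H p q m N).ncard ≤ (twists H N).ncard := by
  classical
  have hdiff : ∀ j : Fin (2 * m - 1), ∀ i l, i ≠ l → S.root j l - S.root j i ≠ 0 :=
    fun j i l hil => sub_ne_zero.2 fun h => hil (hS.root_inj j h).symm
  have hD0 : S.disc ≠ 0 := by
    unfold Family.disc
    refine mul_ne_zero hS.coef_ne ?_
    rw [Finset.prod_ne_zero_iff]
    intro j _
    rw [Finset.prod_ne_zero_iff]
    intro i _
    rw [Finset.prod_ne_zero_iff]
    intro l hl
    rw [Finset.mem_Ioi] at hl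
    exact hdiff j i l hl.ne
  have hC0 : S.collision m ≠ 0 := by
    intro h0
    have h1 := hS.collision_dvd
    rw [h0, zero_pow two_ne_zero] at h1
    exact hS.coef_ne (zero_dvd_iff.1 h1)
  set δ := S.disc.natDegree with hδ
  set u : A := a * S.disc.leadingCoeff * S.coef.leadingCoeff * (S.collision m).leadingCoeff with hu
  have ha' : u ≠ 0 := mul_ne_zero (mul_ne_zero (mul_ne_zero ha (leadingCoeff_ne_zero.2 hD0))
    (leadingCoeff_ne_zero.2 hS.coef_ne)) (leadingCoeff_ne_zero.2 hC0)
  -- closed points
  let Z : Set (MaximalSpectrum A) := {c | u ∉ c.asIdeal ∧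
    (∃ x : A, g.eval x ∈ c.asIdeal) ∧ q * (δ + 3) ≤ Module.finrank k (A ⧸ c.asIdeal) ∧
      Module.Finite k (A ⧸ c.asIdeal)}
  have hZ : Z.Infinite := by
    intro hfin
    obtain ⟨b, hb⟩ := (hfin.image fun c : MaximalSpectrum A =>
      Module.finrank k (A ⧸ c.asIdeal)).bddAbove
    obtain ⟨c, h1, h2, h3, h4⟩ := Pool.Agent.Y709.Lay.existsRootPoint k A hA u ha' g hg
      (max (b + 1) (q * (δ + 3)))
    have h5 := hb ⟨c, ⟨h1, h2, (le_max_right _ _).trans h3, h4⟩, rfl⟩
    have h6 := (le_max_left _ _).trans h3
    dsimp only at h5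
    omega
  obtain ⟨T, hTZ, hTn⟩ := hZ.exists_subset_card_eq n
  have hTf : ∀ c ∈ T, Finite (A ⧸ c.asIdeal) := fun c hc => by
    have h1 := (hTZ hc).2.2.2
    exact Module.finite_of_finite k
  obtain ⟨H₀, hH₀, hH₀'⟩ := Pool.Agent.Y709.Lay.exists_sub (k := k) T hTf
  refine ⟨H₀, hH₀, fun H hle hHf M ρ N hM hρ hρf hN => ?_⟩
  have htw : (twists H N).Finite := Set.finite_coe_iff.1 (Pool.Agent.Y709.Sp.finite_grp H N)
  refine ⟨htw, ?_⟩
  have hmain := Pool.Agent.Y709.Lay.count_specC H N T hTf (hH₀' H hle)
    (fun c => {D | ¬ (S.at (evalAt c)).Settled p q m N D}) q (2 * R + 1) (fun c hc => ?_)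
  · have hq2 : 2 * (2 * R + 1) ≤ q := by
      have h1 : 0 ≤ R * f := Nat.zero_le _
      have h2 : 0 ≤ R ^ 2 := Nat.zero_le _
      omega
    have hsub : (S.exceptions a g H p q m N).ncard ≤
        {D : A[X] | (D.natDegree ≤ N ∧ ∀ j, D.coeff j ∈ H) ∧ ∀ c ∈ T,
          D.map (Ideal.Quotient.mk c.asIdeal) ∈
            {D | ¬ (S.at (evalAt c)).Settled p q m N D}}.ncard := by
      refine Set.ncard_le_ncard ?_ (htw.subset fun D hD => hD.1)
      rintro D ⟨hD, hex⟩
      refine ⟨hD, fun c hc => ?_⟩
      refine hex c ?_ ((hTZ hc).2.1.imp fun x hx => Ideal.Quotient.eq_zero_iff_mem.2 hx)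
      intro h0
      have h1 : a ∈ c.asIdeal := Ideal.Quotient.eq_zero_iff_mem.1 h0
      apply (hTZ hc).1
      rw [hu]
      simp only [mul_assoc]
      exact c.asIdeal.mul_mem_right _ h1
    rw [hTn] at hmain
    have h3 : 0 < (2 * R + 1) ^ n := pow_pos (by omega) n
    have h4 : (2 * R + 1) ^ n * (2 ^ n * (S.exceptions a g H p q m N).ncard) ≤
        (2 * R + 1) ^ n * (twists H N).ncard := by
      calc (2 * R + 1) ^ n * (2 ^ n * (S.exceptions a g H p q m N).ncard) =
          (2 * (2 * R + 1)) ^ n * (S.exceptions a g H p q m N).ncard := by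
            rw [mul_pow]
            ring
        _ ≤ q ^ n * (S.exceptions a g H p q m N).ncard :=
            Nat.mul_le_mul_right _ (Nat.pow_le_pow_left hq2 n)
        _ ≤ q ^ n * _ := Nat.mul_le_mul_left _ hsub
        _ ≤ _ := hmain
    have h5 := Nat.le_of_mul_le_mul_left h4 h3
    have h6 : n ≤ 2 ^ n := Nat.lt_two_pow_self.le
    exact (Nat.mul_le_mul_right _ h6).trans h5
  · obtain ⟨hc1, hc2, hc3, hc4⟩ := hTZ hc
    have hfc : Finite (FieldAt c) := hTf c hc
    have hmf : Module.Finite k (FieldAt c) := hc4
    have hmax := c.isMaximal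
    have hnt : Nontrivial (A ⧸ c.asIdeal) := Ideal.Quotient.nontrivial_iff.2 hmax.ne_top
    have hcard : Nat.card (FieldAt c) = Nat.card k ^ Module.finrank k (FieldAt c) :=
      Module.natCard_eq_pow_finrank (K := k) (V := A ⧸ c.asIdeal)
    have hdpos : 0 < Module.finrank k (FieldAt c) :=
      Module.finrank_pos (R := k) (M := A ⧸ c.asIdeal)
    have hcp : CharP (FieldAt c) p :=
      charP_of_injective_algebraMap (algebraMap k (FieldAt c)).injective p
    have hev : ∀ x : A, x ∣ u → evalAt c x ≠ 0 := by
      rintro x ⟨y, hy⟩ h0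
      have h1 : x ∈ c.asIdeal := Ideal.Quotient.eq_zero_iff_mem.1 h0
      apply hc1
      rw [hy]
      exact c.asIdeal.mul_mem_right _ h1
    have e1 : evalAt c S.coef.leadingCoeff ≠ 0 := hev _ ⟨a * S.disc.leadingCoeff *
      (S.collision m).leadingCoeff, by rw [hu]; ring⟩
    have e2 : evalAt c S.disc.leadingCoeff ≠ 0 := hev _ ⟨a * S.coef.leadingCoeff *
      (S.collision m).leadingCoeff, by rw [hu]; ring⟩
    have e3 : evalAt c (S.collision m).leadingCoeff ≠ 0 := hev _ ⟨a * S.disc.leadingCoeff *
      S.coef.leadingCoeff, by rw [hu]; ring⟩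
    have hdmap : (S.at (evalAt c)).disc = S.disc.map (evalAt c) := by
      unfold Family.disc Family.at
      rw [Polynomial.map_mul, Polynomial.map_prod]
      congr 1
      refine Finset.prod_congr rfl fun j _ => ?_
      rw [Polynomial.map_prod]
      refine Finset.prod_congr rfl fun i _ => ?_
      rw [Polynomial.map_prod]
      refine Finset.prod_congr rfl fun l _ => ?_
      rw [Polynomial.map_sub]
    have hcmap : (S.at (evalAt c)).collision m = (S.collision m).map (evalAt c) := by
      unfold Family.collision Family.at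
      rw [Polynomial.map_prod]
      refine Finset.prod_congr rfl fun j _ => ?_
      by_cases hj : (j : ℕ) < m
      · rw [if_pos hj, if_pos hj, Polynomial.map_one]
      · rw [if_neg hj, if_neg hj, Polynomial.map_prod]
        refine Finset.prod_congr rfl fun i _ => ?_
        rw [Polynomial.map_prod]
        refine Finset.prod_congr rfl fun l _ => ?_
        rw [Polynomial.map_pow, Polynomial.map_sub]
    obtain ⟨hB1, hB2⟩ := map_leading (evalAt c) e1
    obtain ⟨hd1, hd2⟩ := map_leading (evalAt c) e2
    obtain ⟨hc1', hc2'⟩ := map_leading (evalAt c) e3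
    have hD0c : (S.at (evalAt c)).disc ≠ 0 := by
      rw [hdmap]
      exact hd2
    have hδc : (S.at (evalAt c)).disc.natDegree ≤ δ := by
      rw [hdmap]
      exact natDegree_map_le
    have hgood : (S.at (evalAt c)).Good p q m d := by
      refine ⟨?_, ?_, hS.mult_pos, hS.degX_char, hS.degX_lt, hB2, ?_⟩
      · intro j i l hil
        by_contra hne
        apply hD0c
        have key : ∀ i l : Fin (S.rank j + 1), i < l →
            (S.at (evalAt c)).root j i = (S.at (evalAt c)).root j l →
            (S.at (evalAt c)).disc = 0 := by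
          intro i l hil h0
          unfold Family.disc
          refine mul_eq_zero_of_right _ ?_
          refine Finset.prod_eq_zero (Finset.mem_univ j) ?_
          refine Finset.prod_eq_zero (Finset.mem_univ (α := Fin (S.rank j + 1)) i) ?_
          refine Finset.prod_eq_zero (i := l) (Finset.mem_Ioi.2 hil) ?_
          rw [h0, sub_self]
        rcases lt_or_gt_of_ne hne with h | h
        · exact key i l h hil
        · exact key l i h hil.symm
      · intro j i
        exact natDegree_map_le.trans (hS.root_deg j i)
      · rw [hcmap, ← Polynomial.map_pow]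
        exact Polynomial.map_dvd _ hS.collision_dvd
    have hbig : q * (δ + 3) ≤ Nat.card (FieldAt c) := by
      have h1 : Module.finrank k (FieldAt c) < Nat.card k ^ Module.finrank k (FieldAt c) :=
        Nat.lt_pow_self (Finite.one_lt_card)
      rw [hcard]
      exact hc3.trans h1.le
    have h1 := ncard_not_settled (κ := FieldAt c) (p := p) (s := s * Module.finrank k (FieldAt c))
      ha₀ (Nat.mul_pos hs hdpos) hq (by rw [hcard, hk, pow_mul]) hm (S.at (evalAt c)) hgood
      (R := R) hR (f := f)
      (by
        rw [hcmap, hc1']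
        refine le_trans ?_ hf
        exact Nat.add_le_add_right natDegree_map_le _) hr hδc hD0c hbig hM hρ hρf hN
    exact h1

end Pool.Agent.Results.MP_2a05c8_ag.DensityOneProducts
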