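import Pool.Agent.Y137.GN.Main

/-!
# The Tate conjecture for open varieties dominated by abelian varieties of dimension at most five or by
products of elliptic curves and abelian surfaces, over finite fields

Let `k` be a finite field. An abelian variety over `k` is modelled by `RedAV` (Honda, Tate): a finite
product of CM types `(E i, Φ i)` with Weil numbers `π i ∈ E i` that satisfy the formula of Shimura
and Taniyama; its cohomology of degree `n` consists of the alternating `n`-forms on the Tate module
`Ω ⊗ H_1`, on which the Frobenius endomorphism acts by `π`. The coefficients `Ω` are an algebraic
closure of `ℚ_ℓ`.

The good abelian varieties `Y` (`IsGoodAVS`) are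

* **all abelian varieties of dimension at most five**;
* all products (up to isogeny over an algebraic closure) of a supersingular abelian variety and of
  powers of the simple factors of `Z`, where these factors have dimension at most three, and any two
  of them of dimension three which are not supersingular and not isogenous have CM fields with
  different Galois closures, or Galois CM fields: in particular **all products of any number of
  elliptic curves and abelian surfaces**.

**Theorem.** Let `X` be a variety over `k`, proper or not, in the smallest class (`Spread`,
`Generated`) that contains the good abelian varieties (and all varieties for which the assertion is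
known, for example all curves), and that contains

* `Z`, `X` or `X ∖ Z` for a closed subvariety `Z` of `X` if it contains two of them, and all
  varieties whose motive is a direct summand of a sum of twists of motives of members (`Generated`);
* all open subvarieties of members, all images of members under proper morphisms, all varieties that
  are the union of a closed and an open member, and motivic direct summands (`Spread`).

Then for all `i` the cycle class map `CH_i(X) ⊗ ℚ_ℓ → H_{2 i}(X̄, ℚ_ℓ(i))^{G_k}` is surjective (and the
eigenvalue one of the Frobenius is semisimple). For smooth `X` of dimension `d` these are the groups
`CH^{d - i}(X)` and `H^{2 (d - i)}(X̄, ℚ_ℓ(d - i))`; so the conjecture `T^i(X)` holds for all `i ∈ ℤ` and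
all smooth varieties `X` in the class: open subvarieties of abelian varieties of dimension at most
five, of all products of curves of genus at most two, of their quotients, and so on.

The input are theorems: on an abelian variety, the Tate classes over `k` in the system `AlgS` are
combinations of classes of cycles (`IsChowS`: Tate, Markman, Ramón Marí; finite-dimensionality of
the Chow motive, Kimura), and the properties of motivic and `ℓ`-adic homology (`IsHomology`,
`HasWeights`: Deligne).
-/

namespace Pool.Agent.Results.MP_2a05c8_ag.SurfacesAndDimensionFive

open Pool.Agent.W495.TA Pool.Agent.W495.FM Pool.Agent.Y137.GN

/-- The varieties generated by good abelian varieties, and those for which the assertion is known. -/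
def IsKnownS {Ω V : Type} [Field Ω] [CharZero Ω] (p : ℕ) [Fact p.Prime]
    (ν : PadicAlgCl p ≃+* ℂ) (T : Homology Ω V) (X : V) : Prop :=
  Generated T (IsGoodAbelianS p ν T) X ∨ ∀ i, IsOnto T X i

/-- **The Tate conjecture for all varieties over finite fields, proper or not, dominated by abelian
varieties of dimension at most five or by products of elliptic curves and abelian surfaces.** -/
theorem result (p : ℕ) [Fact p.Prime] (ν : PadicAlgCl p ≃+* ℂ) (Ω : Type) [Field Ω]
    [IsAlgClosed Ω] [CharZero Ω] (V : Type) (T : Homology Ω V) (hT : IsHomology T)
    (hW : HasWeights T) (X : V) (hX : Spread T (IsKnownS p ν T) X) (i : ℤ) : IsOnto T X i :=
  onto_spread_goodS hT hW hX i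

end Pool.Agent.Results.MP_2a05c8_ag.SurfacesAndDimensionFive
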